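import Pool.Agent.Work.MP_2cde6c_an.Structure

set_option autoImplicit false

/-!
# Optimal potentials for higher Schrödinger eigenvalues: existence and bounded finiteness set
-/

open MeasureTheory
open scoped ENNReal
open Pool.Agent.Work.MP_2cde6c_an

namespace Pool.Agent.Results.MP_2cde6c_an.OptimalBounded

/-- `V` is admissible (`∫ V^{-p} ≤ 1`) and minimises the `k`-th min-max value `lamK k` of the form
`∫ |∇u|² + V u²` among all admissible potentials on `ℝ^d`. -/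
def IsOptimal {d : ℕ} (p : ℝ) (k : ℕ) (V : (Fin d → ℝ) → ℝ≥0∞) : Prop :=
  Measurable V ∧ ∫⁻ x, V x ^ (-p) ≤ 1 ∧
    ∀ W : (Fin d → ℝ) → ℝ≥0∞, Measurable W → ∫⁻ x, W x ^ (-p) ≤ 1 → lamK k V ≤ lamK k W

/-- For all `d ≥ 1`, `0 < p ≤ 1`, `k ≥ 1`: an optimal potential for `λ_k` exists, and every
optimal potential has finite `λ_k` and is `+∞` almost everywhere outside some ball. -/
theorem result (d : ℕ) (hd : 1 ≤ d) (p : ℝ) (hp : 0 < p) (hp1 : p ≤ 1) (k : ℕ) (hk : 1 ≤ k) :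
    (∃ V : (Fin d → ℝ) → ℝ≥0∞, IsOptimal p k V) ∧
      ∀ V : (Fin d → ℝ) → ℝ≥0∞, IsOptimal p k V → lamK k V < ⊤ ∧
        ∃ R : ℝ, ∀ᵐ x ∂(volume : Measure (Fin d → ℝ)), R < ‖x‖ → V x = ⊤ := by
  obtain ⟨n, rfl⟩ : ∃ n, k = n + 1 := ⟨k - 1, by omega⟩
  constructor
  · obtain ⟨V, hV, hVp, -, hmin⟩ := exists_opt (d := d) hp hp1 n
    exact ⟨V, hV, hVp, hmin⟩
  · rintro V ⟨hV, hVp, hmin⟩
    obtain ⟨W, hW, hWp, hWt⟩ := exists_finite hd hp (n + 1)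
    have hfin : lamK (n + 1) V < ⊤ := (hmin W hW hWp).trans_lt hWt
    exact ⟨hfin, optimal_bounded hp hp1 n hV hVp hmin hfin⟩

end Pool.Agent.Results.MP_2cde6c_an.OptimalBounded
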